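import Pool.Agent.BSH.Stmts

/-!
# BSH, row MAI: the main lemma
-/

set_option autoImplicit false

open MvPolynomial

namespace Pool.Agent.BSH.H70

theorem one_mem_sp {E A : Type} [Field E] [CommRing A] [Algebra E A] (B : Set A) (l : List A) :
    (1 : A) ∈ sp E B l :=
  Submodule.subset_span (Or.inl (Or.inl rfl))

theorem base_mem_sp {E A : Type} [Field E] [CommRing A] [Algebra E A] {B : Set A} (l : List A)
    {x : A} (hx : x ∈ B) : x ∈ sp E B l :=
  Submodule.subset_span (Or.inl (Or.inr hx))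

theorem finite_sp {E A : Type} [Field E] [CommRing A] [Algebra E A] {B : Set A} (hB : B.Finite)
    (l : List A) : Module.Finite E (sp E B l) := by
  have h : ({1} ∪ B ∪ {x | x ∈ l} : Set A).Finite :=
    ((Set.finite_singleton 1).union hB).union (List.finite_toSet l)
  exact Module.Finite.span_of_finite E h

theorem finite_vs (E : Type) [Field E] (n : ℕ) : (vs E n).Finite := by
  have h : vs E n ⊆ (fun i : ℕ => (X i : MvPolynomial ℕ E)) '' Set.Iio n := by
    rintro x ⟨i, hi, rfl⟩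
    exact ⟨i, hi, rfl⟩
  exact ((Set.finite_Iio n).image _).subset h

theorem shf_lt {E : Type} [Field E] (k r d : ℕ) (a : ℕ → ℕ → E) {i : ℕ} (hi : i < k) :
    shf k r d a (X i) = X i := by
  rw [shf, aeval_X, if_neg (by omega)]

theorem shf_ge {E : Type} [Field E] (k r d : ℕ) (a : ℕ → ℕ → E) {j : ℕ} (hj : j < r) :
    shf k r d a (X (k + j)) = X (k + j) + ∑ m ∈ Finset.range k, C (a m j) * X m ^ d := by
  rw [shf, aeval_X, if_pos (by omega), Nat.add_sub_cancel_left]

theorem mem_pow_of_mem {E A : Type} [Field E] [CommRing A] [Algebra E A] {W : Submodule E A}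
    (h1 : (1 : A) ∈ W) {x : A} (hx : x ∈ W) {d : ℕ} (hd : 1 ≤ d) : x ∈ W ^ d := by
  obtain ⟨e, rfl⟩ : ∃ e, d = e + 1 := ⟨d - 1, by omega⟩
  rw [pow_succ']
  have h := Submodule.mul_mem_mul hx (Submodule.pow_mem_pow W h1 e)
  rwa [one_pow, mul_one] at h

theorem mai (bst : BstStmt) (hbd : HbdStmt) (bin : BinStmt) (lim : LimStmt) (fam : FamStmt)
    (chr : ChrStmt) (map : MapStmt) : MaiStmt := by
  intro E _ _ k r d s a F hd hmin hc hF hsub
  obtain ⟨l, hl, hch, hFl⟩ := hc
  obtain ⟨l', hl', hch', hD⟩ := bst E _ (vs E (k + r)) l F hch hFl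
  have hpd : ∀ i, pderiv i F ∈ sp E (vs E (k + r)) (l' ++ l) := by
    intro i
    apply hD (pderiv i)
    rintro x ⟨j, hj, rfl⟩
    by_cases h : j = i
    · subst h
      exact ⟨1, by rw [pderiv_X_self, map_one]⟩
    · exact ⟨0, by rw [pderiv_X_of_ne h, map_zero]⟩
  obtain ⟨c1, c2, c3, c4⟩ := chr E k r d a F
  set L1 : List (MvPolynomial ℕ E) := List.ofFn fun j : Fin r => shf k r d a (X (k + j)) with hL1
  have hL1len : L1.length = r := by rw [hL1, List.length_ofFn]
  set B' : Set (MvPolynomial ℕ E) := vs E (k + r) ∪ {x | x ∈ L1} with hB'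
  have hpow : ∀ u ∈ L1, u ∈ (sp E (vs E (k + r)) []) ^ d := by
    intro u hu
    rw [hL1, List.mem_ofFn] at hu
    obtain ⟨j, rfl⟩ := hu
    rw [shf_ge k r d a j.2]
    refine Submodule.add_mem _ ?_ (Submodule.sum_mem _ fun m hm => ?_)
    · exact mem_pow_of_mem (one_mem_sp _ _)
        (base_mem_sp _ (show (X (k + (j : ℕ)) : MvPolynomial ℕ E) ∈ vs E (k + r) from
          ⟨k + j, by have := j.2; omega, rfl⟩)) (by omega)
    · rw [← smul_eq_C_mul]
      apply Submodule.smul_mem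
      apply Submodule.pow_mem_pow
      have := Finset.mem_range.1 hm
      exact base_mem_sp _ (show (X m : MvPolynomial ℕ E) ∈ vs E (k + r) from
        ⟨m, by omega, rfl⟩)
  have hmap := map E _ _ (shf k r d a) (vs E (k + r)) B' (l' ++ l) [] hch' trivial (by
    rintro x ⟨i, hi, rfl⟩
    by_cases hik : i < k
    · rw [shf_lt k r d a hik]
      exact base_mem_sp _ (show (X i : MvPolynomial ℕ E) ∈ B' from Or.inl ⟨i, hi, rfl⟩)
    · obtain ⟨j, rfl⟩ : ∃ j, i = k + j := ⟨i - k, by omega⟩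
      refine base_mem_sp _ (Or.inr ?_)
      change shf k r d a (X (k + j)) ∈ L1
      rw [hL1, List.mem_ofFn]
      exact ⟨⟨j, by omega⟩, rfl⟩)
  rw [List.append_nil] at hmap
  obtain ⟨hch2, hmem2⟩ := hmap
  set l2 : List (MvPolynomial ℕ E) := (l' ++ l).map (shf k r d a) with hl2
  have hl2len : l2.length ≤ 3 * s := by
    rw [hl2, List.length_map, List.length_append]
    omega
  have hBfin : B'.Finite := (finite_vs E (k + r)).union (List.finite_toSet L1)
  have hfin : Module.Finite E (sp E B' l2) := finite_sp hBfin l2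
  have hzz : ∀ i < k, zz k r a (shf k r d a F) i ∈ sp E B' l2 ∧
      yy k r d a (shf k r d a F) i ∈ sp E B' l2 := by
    intro i hi
    constructor
    · rw [zz]
      refine Submodule.sum_mem _ fun j hj => ?_
      rw [← smul_eq_C_mul]
      apply Submodule.smul_mem
      rw [c1 j (Finset.mem_range.1 hj)]
      exact hmem2 _ (hpd _)
    · rw [c2 i hi]
      exact hmem2 _ (hpd _)
  have hX : ∀ i < k + r, (X i : MvPolynomial ℕ E) ∈ sp E B' l2 := fun i hi =>
    base_mem_sp _ (show (X i : MvPolynomial ℕ E) ∈ B' from Or.inl ⟨i, hi, rfl⟩)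
  have key : ∀ D0 : ℕ, (D0 + 1) ^ (k + r) * (d - 1) ^ (k + 1 - r) ≤
      (8 ^ s * d ^ r * 3 ^ (k + r)) * (D0 + d) ^ (k + r) := by
    intro D0
    have h1 := fam E k r d D0 a (shf k r d a F) (sp E B' l2) hd hmin (c3 hF) (c4 hsub) hfin
      (one_mem_sp _ _) hX hzz
    have h2 := hbd E (k + r) d L1 l2 (by omega) hpow hch2 ((k + r) * D0 + k * (d - 2))
    have h3 := bin (k + r) k d D0 (by omega) (by omega)
    rw [hL1len] at h2
    have h4 : 2 ^ l2.length ≤ 8 ^ s := by
      calc 2 ^ l2.length ≤ 2 ^ (3 * s) := Nat.pow_le_pow_right (by norm_num) hl2len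
        _ = 8 ^ s := by rw [pow_mul]; norm_num
    calc _ ≤ _ := h1
      _ ≤ _ := h2
      _ ≤ d ^ r * 8 ^ s * (3 ^ (k + r) * (D0 + d) ^ (k + r)) := by gcongr
      _ = _ := by ring
  exact lim (k + r) d _ _ key

end Pool.Agent.BSH.H70
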